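import Mathlib

/-! Hofstadter's Q-sequence: the value `7` forces a late value `8`, `9` or `10`. -/

set_option autoImplicit false

namespace Pool.Agent.H59HQ

/-- The first values. -/
theorem init {f : ℕ → ℕ} (h1 : f 1 = 1) (h2 : f 2 = 1)
    (hr : ∀ n, 3 ≤ n → f n = f (n - f (n - 1)) + f (n - f (n - 2))) :
    (f 3 = 2 ∧ f 4 = 3 ∧ f 5 = 3 ∧ f 6 = 4 ∧ f 7 = 5 ∧ f 8 = 5) ∧
    (f 9 = 6 ∧ f 10 = 6 ∧ f 11 = 6 ∧ f 12 = 8 ∧ f 13 = 8 ∧ f 14 = 8) ∧
    (f 15 = 10 ∧ f 16 = 9 ∧ f 17 = 10 ∧ f 18 = 11 ∧ f 19 = 11 ∧ f 20 = 12) ∧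
    (f 21 = 12 ∧ f 22 = 12 ∧ f 23 = 12 ∧ f 24 = 16) := by
  have h3 : f 3 = 2 := by
    rw [hr 3 (by norm_num), show 3 - 1 = 2 from rfl, show 3 - 2 = 1 from rfl, h2, h1]
    show f 2 + f 2 = 2
    rw [h2]
  have h4 : f 4 = 3 := by
    rw [hr 4 (by norm_num)]
    simp [h2, h3]
  have h5 : f 5 = 3 := by
    rw [hr 5 (by norm_num), show 5 - 1 = 4 from rfl, show 5 - 2 = 3 from rfl, h4, h3]
    show f 2 + f 3 = 3
    rw [h2, h3]
  have h6 : f 6 = 4 := by
    rw [hr 6 (by norm_num), show 6 - 1 = 5 from rfl, show 6 - 2 = 4 from rfl, h5, h4]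
    show f 3 + f 3 = 4
    rw [h3]
  have h7 : f 7 = 5 := by
    rw [hr 7 (by norm_num), show 7 - 1 = 6 from rfl, show 7 - 2 = 5 from rfl, h6, h5]
    show f 3 + f 4 = 5
    rw [h3, h4]
  have h8 : f 8 = 5 := by
    rw [hr 8 (by norm_num), show 8 - 1 = 7 from rfl, show 8 - 2 = 6 from rfl, h7, h6]
    show f 3 + f 4 = 5
    rw [h3, h4]
  have h9 : f 9 = 6 := by
    rw [hr 9 (by norm_num), show 9 - 1 = 8 from rfl, show 9 - 2 = 7 from rfl, h8, h7]
    show f 4 + f 4 = 6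
    rw [h4]
  have h10 : f 10 = 6 := by
    rw [hr 10 (by norm_num), show 10 - 1 = 9 from rfl, show 10 - 2 = 8 from rfl, h9, h8]
    show f 4 + f 5 = 6
    rw [h4, h5]
  have h11 : f 11 = 6 := by
    rw [hr 11 (by norm_num), show 11 - 1 = 10 from rfl, show 11 - 2 = 9 from rfl, h10, h9]
    show f 5 + f 5 = 6
    rw [h5]
  have h12 : f 12 = 8 := by
    rw [hr 12 (by norm_num), show 12 - 1 = 11 from rfl, show 12 - 2 = 10 from rfl, h11, h10]
    show f 6 + f 6 = 8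
    rw [h6]
  have h13 : f 13 = 8 := by
    rw [hr 13 (by norm_num), show 13 - 1 = 12 from rfl, show 13 - 2 = 11 from rfl, h12, h11]
    show f 5 + f 7 = 8
    rw [h5, h7]
  have h14 : f 14 = 8 := by
    rw [hr 14 (by norm_num), show 14 - 1 = 13 from rfl, show 14 - 2 = 12 from rfl, h13, h12]
    show f 6 + f 6 = 8
    rw [h6]
  have h15 : f 15 = 10 := by
    rw [hr 15 (by norm_num), show 15 - 1 = 14 from rfl, show 15 - 2 = 13 from rfl, h14, h13]
    show f 7 + f 7 = 10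
    rw [h7]
  have h16 : f 16 = 9 := by
    rw [hr 16 (by norm_num), show 16 - 1 = 15 from rfl, show 16 - 2 = 14 from rfl, h15, h14]
    show f 6 + f 8 = 9
    rw [h6, h8]
  have h17 : f 17 = 10 := by
    rw [hr 17 (by norm_num), show 17 - 1 = 16 from rfl, show 17 - 2 = 15 from rfl, h16, h15]
    show f 8 + f 7 = 10
    rw [h8, h7]
  have h18 : f 18 = 11 := by
    rw [hr 18 (by norm_num), show 18 - 1 = 17 from rfl, show 18 - 2 = 16 from rfl, h17, h16]
    show f 8 + f 9 = 11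
    rw [h8, h9]
  have h19 : f 19 = 11 := by
    rw [hr 19 (by norm_num), show 19 - 1 = 18 from rfl, show 19 - 2 = 17 from rfl, h18, h17]
    show f 8 + f 9 = 11
    rw [h8, h9]
  have h20 : f 20 = 12 := by
    rw [hr 20 (by norm_num), show 20 - 1 = 19 from rfl, show 20 - 2 = 18 from rfl, h19, h18]
    show f 9 + f 9 = 12
    rw [h9]
  have h21 : f 21 = 12 := by
    rw [hr 21 (by norm_num), show 21 - 1 = 20 from rfl, show 21 - 2 = 19 from rfl, h20, h19]
    show f 9 + f 10 = 12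
    rw [h9, h10]
  have h22 : f 22 = 12 := by
    rw [hr 22 (by norm_num), show 22 - 1 = 21 from rfl, show 22 - 2 = 20 from rfl, h21, h20]
    show f 10 + f 10 = 12
    rw [h10]
  have h23 : f 23 = 12 := by
    rw [hr 23 (by norm_num), show 23 - 1 = 22 from rfl, show 23 - 2 = 21 from rfl, h22, h21]
    show f 11 + f 11 = 12
    rw [h11]
  have h24 : f 24 = 16 := by
    rw [hr 24 (by norm_num), show 24 - 1 = 23 from rfl, show 24 - 2 = 22 from rfl, h23, h22]
    show f 12 + f 12 = 16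
    rw [h12]
  exact ⟨⟨h3, h4, h5, h6, h7, h8⟩, ⟨h9, h10, h11, h12, h13, h14⟩, ⟨h15, h16, h17, h18, h19, h20⟩, ⟨h21, h22, h23, h24⟩⟩

theorem bonus {f : ℕ → ℕ} (h1 : f 1 = 1) (h2 : f 2 = 1)
    (hw : ∀ n, 3 ≤ n → f (n - 1) < n ∧ f (n - 2) < n)
    (hr : ∀ n, 3 ≤ n → f n = f (n - f (n - 1)) + f (n - f (n - 2))) {m A w : ℕ} (hm : 23 ≤ m)
    (hmin : ∀ j, 12 ≤ j → j < m + 2 → 8 ≤ f j) (hfm : f m = m) (hA : f (m + 1) + A = m + 2)
    (hw1 : f (m - 1) = w) (h9 : 9 ≤ w) (hwA : w ≤ A) (hA11 : A ≤ 11) :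
    ∃ P, 24 ≤ P ∧ P < m ∧ 8 ≤ f P ∧ f P ≤ 10 ∧ 16 ≤ f (P + 1) ∧ f (m - 2) + P + 1 = m := by
  obtain ⟨⟨e3, e4, e5, e6, e7, e8⟩, ⟨e9, e10, e11, e12, e13, e14⟩, ⟨e15, e16, e17, e18, e19, e20⟩,
    e21, e22, e23, e24⟩ := init h1 h2 hr
  have hle : ∀ k, 1 ≤ k → f k ≤ k := by
    intro k hk
    rcases Nat.lt_or_ge k 2 with h | h
    · have : k = 1 := by omega
      rw [this, h1]
    · have h3 := (hw (k + 1) (by omega)).1
      rw [Nat.add_sub_cancel] at h3
      omega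
  have hpos : ∀ k, 1 ≤ k → 1 ≤ f k := by
    intro k
    induction k using Nat.strong_induction_on with
    | _ k ih =>
      intro hk
      rcases Nat.lt_or_ge k 3 with h | h
      · rcases (by omega : k = 1 ∨ k = 2) with h' | h' <;> rw [h'] <;> omega
      · rw [hr k h]
        have h3 := hle (k - 1) (by omega)
        have h4 := ih (k - 1) (by omega) (by omega)
        have h5 := ih (k - f (k - 1)) (by omega) (by omega)
        omega
  have small : ∀ j, 1 ≤ j → j < m + 2 → f j ≤ 7 → j ≤ 11 := by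
    intro j hj hjm hf
    by_contra hc
    have := hmin j (by omega) hjm
    omega
  -- the recurrence at `m - 1`, `m`, `m + 1`
  have r1 := hr (m - 1) (by omega)
  have r2 := hr m (by omega)
  have r3 := hr (m + 1) (by omega)
  rw [show m - 1 - 1 = m - 2 by omega, show m - 1 - 2 = m - 3 by omega, hw1] at r1
  rw [hw1, hfm] at r2
  rw [show m + 1 - 1 = m by omega, show m + 1 - 2 = m - 1 by omega, hw1, hfm,
    show m + 1 - m = 1 by omega, h1] at r3
  have l2 := hle (m - 2) (by omega)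
  have l3 := hle (m - 3) (by omega)
  obtain ⟨P, hP⟩ : ∃ P, P = m - 1 - f (m - 2) := ⟨_, rfl⟩
  obtain ⟨Q, hQ⟩ : ∃ Q, Q = m - 1 - f (m - 3) := ⟨_, rfl⟩
  rw [← hP, ← hQ] at r1
  have hP1 : m - f (m - 2) = P + 1 := by omega
  rw [hP1] at r2
  have p2 := hpos (m - 2) (by omega)
  have p3 := hpos (m - 3) (by omega)
  have l4 := hle (m - w) (by omega)
  obtain ⟨g, hg⟩ : ∃ g, g = f (P + 1) := ⟨_, rfl⟩
  rw [← hg] at r2
  have hg9 : 9 ≤ g := by omega
  have hfP := hpos P (by omega)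
  have hfQ := hpos Q (by omega)
  have hP14 : 14 ≤ P := by
    by_contra hc
    have : P < 14 := by omega
    interval_cases P <;> simp only [Nat.reduceAdd] at hg <;> omega
  have hP8 := hmin P (by omega) (by omega)
  have hQ11 := small Q (by omega) (by omega) (by omega)
  -- the recurrence at `m + 2 - w`
  have r4 := hr (m + 2 - w) (by omega)
  rw [show m + 2 - w - 1 = m + 1 - w by omega, show m + 2 - w - 2 = m - w by omega] at r4
  have e : m + 2 - w - f (m + 1 - w) = A + 1 - w := by omega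
  have e' : m + 2 - w - f (m - w) = g + 2 - w := by omega
  rw [e, e'] at r4
  have h8 := hmin (m + 2 - w) (by omega) (by omega)
  have hAw : f (A + 1 - w) ≤ 2 := by
    rcases (by omega : A + 1 - w = 1 ∨ A + 1 - w = 2 ∨ A + 1 - w = 3) with h | h | h <;>
      rw [h] <;> omega
  have hg16 : 16 ≤ g := by
    by_contra hc
    obtain ⟨t, ht⟩ : ∃ t, t = g + 2 - w := ⟨_, rfl⟩
    rw [← ht] at r4
    have : t ≤ 8 := by omega
    interval_cases t <;> omega
  refine ⟨P, ?_, by omega, hP8, by omega, by omega, by omega⟩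
  by_contra hc
  have : P < 24 := by omega
  interval_cases P <;> simp only [Nat.reduceAdd] at hg <;> omega

end Pool.Agent.H59HQ
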